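import Pool.Agent.K1H77.PA.Stm

/-! # Block triangular induction (piece PA3 of project PA) -/

set_option autoImplicit false

open Module

namespace Pool.Agent.K1H37.PA

open Pool.Agent.K1H77.PA

theorem good_zero {L σ : Type} [Field L] (E : L → Prop) : Good E (fun _ : List σ => (0 : L)) := by
  refine ⟨Fin 0, inferInstance, ⟨fun q => q.elim0, fun _ q => q.elim0, fun q => q.elim0⟩,
    ⟨0, 0, fun w => ?_⟩, fun w q => q.elim0, fun w => ?_⟩
  · simp [GA.amb]
  · simp [GA.val]

theorem good_sum (h1 : S_ADD) {L σ ι : Type} [Field L] (E : L → Prop) (s : Finset ι)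
    (f : ι → List σ → L) (hf : ∀ i ∈ s, Good E (f i)) : Good E (fun w => ∑ i ∈ s, f i w) := by
  classical
  induction s using Finset.induction_on with
  | empty => simpa using good_zero E
  | insert i s hi ih =>
    have h := h1 L σ E (f i) (fun w => ∑ i ∈ s, f i w) (hf i (Finset.mem_insert_self _ _))
      (ih fun j hj => hf j (Finset.mem_insert_of_mem hj))
    simpa [Finset.sum_insert hi] using h

section

variable {L V σ : Type} [Field L] [AddCommGroup V] [Module L V]

@[simp] theorem act_nil (ρ : σ → End L V) : act ρ [] = 1 := by simp [act]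

@[simp] theorem act_cons (ρ : σ → End L V) (a : σ) (w : List σ) :
    act ρ (a :: w) = ρ a * act ρ w := by simp [act]

variable (ρ : σ → End L V) (U : Submodule L V) (hU : ∀ a, ∀ u ∈ U, ρ a u ∈ U)

/-- the restriction -/
noncomputable def res (a : σ) : End L U := (ρ a).restrict (hU a)

/-- the quotient -/
noncomputable def quo (a : σ) : End L (V ⧸ U) := U.mapQ U (ρ a) (hU a)

theorem act_res (w : List σ) (u : U) : ((act (res ρ U hU) w u : U) : V) = act ρ w u := by
  induction w with
  | nil => simp
  | cons a w ih => simp [res, ih]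

theorem act_quo (w : List σ) (x : V) : act (quo ρ U hU) w (U.mkQ x) = U.mkQ (act ρ w x) := by
  induction w with
  | nil => simp
  | cons a w ih =>
    rw [act_cons, act_cons, Module.End.mul_apply, Module.End.mul_apply, ih]
    simp [quo]

theorem eig_res [FiniteDimensional L V] (w : List σ) (c : L)
    (h : (act (res ρ U hU) w).HasEigenvalue c) : (act ρ w).HasEigenvalue c := by
  obtain ⟨u, hu⟩ := h.exists_hasEigenvector
  refine Module.End.hasEigenvalue_of_hasEigenvector (x := (u : V)) ?_
  rw [Module.End.hasEigenvector_iff, Module.End.mem_eigenspace_iff]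
  refine ⟨?_, ?_⟩
  · rw [← act_res ρ U hU w u, hu.apply_eq_smul]
    simp
  · simpa using hu.2

theorem eig_quo [FiniteDimensional L V] (w : List σ) (c : L)
    (h : (act (quo ρ U hU) w).HasEigenvalue c) : (act ρ w).HasEigenvalue c := by
  by_contra hc
  have hinj : Function.Injective (act ρ w - algebraMap L (End L V) c) := by
    rw [← LinearMap.ker_eq_bot]
    by_contra hne
    apply hc
    rw [Module.End.hasEigenvalue_iff, Module.End.eigenspace_def]
    exact hne
  have hsur : Function.Surjective (act ρ w - algebraMap L (End L V) c) :=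
    LinearMap.injective_iff_surjective.mp hinj
  have hsur2 : Function.Surjective (act (quo ρ U hU) w - algebraMap L (End L (V ⧸ U)) c) := by
    intro y
    obtain ⟨x, rfl⟩ := U.mkQ_surjective y
    obtain ⟨x', rfl⟩ := hsur x
    refine ⟨U.mkQ x', ?_⟩
    rw [LinearMap.sub_apply, act_quo ρ U hU w x', LinearMap.sub_apply, map_sub]
    simp [Algebra.algebraMap_eq_smul_one]
  have hinj2 := LinearMap.injective_iff_surjective.mpr hsur2
  rw [Module.End.hasEigenvalue_iff, Module.End.eigenspace_def] at h
  exact h (LinearMap.ker_eq_bot.mpr hinj2)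

variable (s : (V ⧸ U) →ₗ[L] V) (hs : ∀ z, U.mkQ (s z) = z)

/-- the off-diagonal block -/
noncomputable def blk (a : σ) : (V ⧸ U) →ₗ[L] U :=
  LinearMap.codRestrict U (ρ a ∘ₗ s - s ∘ₗ quo ρ U hU a) (fun z => by
    refine (Submodule.Quotient.mk_eq_zero U).mp ?_
    rw [← Submodule.mkQ_apply, LinearMap.sub_apply, map_sub,
      LinearMap.comp_apply, LinearMap.comp_apply, hs]
    have e : quo ρ U hU a z = U.mkQ (ρ a (s z)) := by
      conv_lhs => rw [← hs z]
      simp [quo]
    rw [e, sub_self])

theorem blk_apply (a : σ) (z : V ⧸ U) :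
    ρ a (s z) = s (quo ρ U hU a z) + (blk ρ U hU s hs a z : V) := by
  simp [blk]

theorem act_s (w : List σ) (z : V ⧸ U) :
    act ρ w (s z) = s (act (quo ρ U hU) w z) + ((∑ i : Fin w.length,
      act (res ρ U hU) (w.take i) (blk ρ U hU s hs (w.get i)
        (act (quo ρ U hU) (w.drop (i + 1)) z)) : U) : V) := by
  induction w with
  | nil => simp
  | cons a w ih =>
    rw [act_cons, Module.End.mul_apply, ih, map_add, blk_apply ρ U hU s hs a, act_cons,
      Module.End.mul_apply]
    have e : ρ a ((∑ i : Fin w.length, act (res ρ U hU) (w.take i) (blk ρ U hU s hs (w.get i)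
        (act (quo ρ U hU) (w.drop (i + 1)) z)) : U) : V) = ((∑ i : Fin w.length,
          act (res ρ U hU) (a :: w.take i) (blk ρ U hU s hs (w.get i)
        (act (quo ρ U hU) (w.drop (i + 1)) z)) : U) : V) := by
      simp [map_sum, res]
    rw [e, add_assoc, ← Submodule.coe_add]
    congr 2
    refine Eq.trans ?_ (Fin.sum_univ_succ (n := w.length) (fun i : Fin (w.length + 1) =>
      act (res ρ U hU) ((a :: w).take i) (blk ρ U hU s hs ((a :: w).get i)
        (act (quo ρ U hU) ((a :: w).drop (i + 1)) z)))).symm
    simp

end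

theorem t_BLOCK (h1 : S_ADD) (h2 : S_SMUL) (h3 : S_CONV) : S_BLOCK := by
  intro L σ _ _ E E' hirr
  have main : ∀ n : ℕ, ∀ (V : Type) [AddCommGroup V] [Module L V] [FiniteDimensional L V]
      (ρ : σ → End L V), finrank L V = n → (∀ w c, (act ρ w).HasEigenvalue c → E' c) →
      ∀ (l : Dual L V) (x : V), Good E (fun w => l (act ρ w x)) := by
    intro n
    induction n using Nat.strong_induction_on with
    | _ n ih =>
      intro V _ _ _ ρ hn hE l x
      rcases subsingleton_or_nontrivial V with hV | hV
      · have : (fun w => l (act ρ w x)) = fun _ : List σ => (0 : L) := by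
          funext w
          rw [Subsingleton.elim (act ρ w x) 0, map_zero]
        rw [this]
        exact good_zero E
      by_cases hI : Irr ρ
      · exact hirr V ρ hI hE l x
      unfold Irr at hI
      push Not at hI
      obtain ⟨U, hU, hb, ht⟩ := hI
      obtain ⟨s, hs'⟩ := LinearMap.exists_rightInverse_of_surjective U.mkQ U.range_mkQ
      have hs : ∀ z, U.mkQ (s z) = z := fun z => LinearMap.congr_fun hs' z
      have hU1 : finrank L U < n := hn ▸ Submodule.finrank_lt ht
      have hpos : 0 < finrank L U := by
        rw [Module.finrank_pos_iff]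
        exact (Submodule.nontrivial_iff_ne_bot).mpr hb
      have hU2 : finrank L (V ⧸ U) < n := by
        have := Submodule.finrank_quotient_add_finrank U
        omega
      have g1 : ∀ (l : Dual L U) (x : U), Good E (fun w => l (act (res ρ U hU) w x)) :=
        ih _ hU1 U (res ρ U hU) rfl (fun w c h => hE w c (eig_res ρ U hU w c h))
      have g2 : ∀ (l : Dual L (V ⧸ U)) (x : V ⧸ U),
          Good E (fun w => l (act (quo ρ U hU) w x)) :=
        ih _ hU2 (V ⧸ U) (quo ρ U hU) rfl (fun w c h => hE w c (eig_quo ρ U hU w c h))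
      set z := U.mkQ x with hz
      have hu : x - s z ∈ U := by
        refine (Submodule.Quotient.mk_eq_zero U).mp ?_
        rw [← Submodule.mkQ_apply, map_sub, hs, hz, sub_self]
      set bU := finBasis L U
      set bW := finBasis L (V ⧸ U)
      have key : (fun w => l (act ρ w x)) = fun w =>
          ((l ∘ₗ U.subtype) (act (res ρ U hU) w ⟨x - s z, hu⟩) +
            (l ∘ₗ s) (act (quo ρ U hU) w z)) +
          ∑ jk ∈ (Finset.univ : Finset (Fin (finrank L U) × Fin (finrank L (V ⧸ U)))),
            conv (fun u => (l ∘ₗ U.subtype) (act (res ρ U hU) u (bU jk.1)))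
              (fun a => bU.coord jk.1 (blk ρ U hU s hs a (bW jk.2)))
              (fun v => bW.coord jk.2 (act (quo ρ U hU) v z)) w := by
        funext w
        have e1 : act ρ w x = act ρ w (x - s z) + act ρ w (s z) := by
          rw [← map_add, sub_add_cancel]
        rw [e1, map_add, act_s ρ U hU s hs w z, map_add]
        have e2 : act ρ w (x - s z) = ((act (res ρ U hU) w ⟨x - s z, hu⟩ : U) : V) := by
          rw [act_res]
        rw [e2, ← add_assoc]
        congr 1
        unfold conv
        rw [Finset.sum_comm]
        have e3 : ∀ y : U, l (y : V) = (l ∘ₗ U.subtype) y := fun y => rfl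
        rw [e3, map_sum]
        refine Finset.sum_congr rfl fun i _ => ?_
        beta_reduce
        generalize act (quo ρ U hU) (w.drop (i + 1)) z = y
        generalize w.get i = a
        generalize w.take i = u
        have e4 : blk ρ U hU s hs a y = ∑ jk : Fin (finrank L U) × Fin (finrank L (V ⧸ U)),
            (bU.coord jk.1 (blk ρ U hU s hs a (bW jk.2)) * bW.coord jk.2 y) • bU jk.1 := by
          rw [Fintype.sum_prod_type]
          conv_lhs => rw [← bU.sum_repr (blk ρ U hU s hs a y)]
          refine Finset.sum_congr rfl fun j _ => ?_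
          refine Eq.trans ?_ (Finset.sum_smul (s := Finset.univ)
            (f := fun k => bU.coord j (blk ρ U hU s hs a (bW k)) * bW.coord k y)
            (x := bU j))
          congr 1
          change bU.coord j (blk ρ U hU s hs a y) = _
          have e5 : blk ρ U hU s hs a y = ∑ k, bW.coord k y • blk ρ U hU s hs a (bW k) := by
            conv_lhs => rw [← bW.sum_repr y]
            rw [map_sum]
            refine Finset.sum_congr rfl fun k _ => ?_
            rw [map_smul]
            rfl
          rw [e5, map_sum]
          refine Finset.sum_congr rfl fun k _ => ?_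
          rw [map_smul]
          simp [mul_comm]
        rw [e4, map_sum, map_sum]
        refine Finset.sum_congr rfl fun jk _ => ?_
        rw [map_smul, map_smul, smul_eq_mul]
        ring
      rw [key]
      refine h1 L σ E _ _ (h1 L σ E _ _ (g1 _ _) (g2 _ _)) ?_
      exact good_sum h1 E _ _ fun jk _ => h3 L σ E _ _ _ (g1 _ _) (g2 _ _)
  intro V _ _ _ ρ hE l x
  exact main _ V ρ rfl hE l x

end Pool.Agent.K1H37.PA
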